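import Pool.Agent.H547.Main147

set_option autoImplicit false

/-!
The full first question of `MP_147bb8_nt`: for every odd prime `p`,
`∑_{k<p} a_k/(-64)^k ≡ 3p² - (7/2) p⁵ B_{p-3} (mod p⁶)` and
`∑_{k≤(p-1)/2} a_k/(-64)^k ≡ 3p² + 6 (-1/p) p⁴ E_{p-3} (mod p⁵)`,
where `a_k = (28k²+18k+3) C(2k,k)⁴ C(3k,k)`.
-/

namespace Pool.Agent.Results.MP_147bb8_nt.QOneCongruences

open Finset Pool.Agent.R439.PL Pool.Agent.H547

/-- the integers `a_k = (28k²+18k+3) C(2k,k)⁴ C(3k,k)` -/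
def a (k : ℕ) : ℤ := (28 * (k : ℤ) ^ 2 + 18 * k + 3) * ((2 * k).choose k : ℤ) ^ 4 *
  ((3 * k).choose k : ℤ)

/-- the Euler numbers, `2/(e^t+e^{-t}) = ∑ E_n t^n/n!` -/
noncomputable def E (n : ℕ) : ℚ := (n.factorial : ℚ) * PowerSeries.coeff n
  (PowerSeries.C (2 : ℚ) * (PowerSeries.exp ℚ + PowerSeries.rescale (-1 : ℚ) (PowerSeries.exp ℚ))⁻¹)

/-- `x ≡ y (mod p^m)` for rational numbers: `x - y = p^m w` with the denominator of `w` prime to `p` -/
def Cong (p m : ℕ) (x y : ℚ) : Prop := ∃ w : ℚ, ¬ p ∣ w.den ∧ x - y = (p : ℚ) ^ m * w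

theorem cong_of_I {p m : ℕ} [hp : Fact p.Prime] {x y : ℚ} (h : I p m (x - y)) : Cong p m x y := by
  refine ⟨(x - y) / (p : ℚ) ^ m, den_of_I h, ?_⟩
  have := p_ne (p := p)
  field_simp

theorem aT_eq (k : ℕ) : (a k : ℚ) / (-64) ^ k = aT k := by
  unfold a aT
  push_cast
  ring

theorem E_eq (n : ℕ) : E n = eulerNum n := rfl

theorem result (p : ℕ) [hp : Fact p.Prime] (h2 : p ≠ 2) :
    Cong p 6 (∑ k ∈ range p, (a k : ℚ) / (-64) ^ k)
      (3 * (p : ℚ) ^ 2 - 7 / 2 * (p : ℚ) ^ 5 * bernoulli (p - 3)) ∧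
    Cong p 5 (∑ k ∈ range ((p - 1) / 2 + 1), (a k : ℚ) / (-64) ^ k)
      (3 * (p : ℚ) ^ 2 + 6 * (legendreSym p (-1) : ℚ) * (p : ℚ) ^ 4 * E (p - 3)) := by
  have hodd : p % 2 = 1 := hp.out.eq_two_or_odd.resolve_left h2
  obtain ⟨y, hy⟩ : ∃ y, p = 2 * y + 1 := ⟨p / 2, by omega⟩
  have hl : (legendreSym p (-1) : ℚ) = (-1) ^ y := by
    rw [legendreSym.at_neg_one h2, ZMod.χ₄_eq_neg_one_pow hodd]
    have : p / 2 = y := by omega
    rw [this]
    push_cast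
    rfl
  have hy2 : (p - 1) / 2 = y := by omega
  rw [hl, hy2, E_eq]
  simp only [aT_eq]
  rcases Nat.lt_or_ge 3 p with h3 | h3
  · exact ⟨cong_of_I (main1 hy h3), cong_of_I (main2 hy h3)⟩
  · have hp3 : p = 3 := by
      have := hp.out.two_le
      omega
    subst hp3
    have hy1 : y = 1 := by omega
    subst hy1
    have hE : eulerNum 0 = 1 := by
      have h := eps_rec 0 0
      rw [eps_eq, eps_eq] at h
      simp at h
      linarith
    have hB : bernoulli (3 - 3) = 1 := bernoulli_zero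
    have s3 : ∑ k ∈ range 3, aT k = 174825 / 256 := by
      simp only [sum_range_succ, sum_range_zero, aT, Nat.choose]
      norm_num
    have s2 : ∑ k ∈ range (1 + 1), aT k = -135 / 4 := by
      simp only [sum_range_succ, sum_range_zero, aT, Nat.choose]
      norm_num
    rw [s3, s2, hB, show (3 - 3 : ℕ) = 0 from rfl, hE]
    constructor
    · exact cong_of_I ⟨529 / 256, ⟨529, 256, by norm_num, by norm_num⟩, by norm_num⟩
    · exact cong_of_I ⟨7 / 4, ⟨7, 4, by norm_num, by norm_num⟩, by norm_num⟩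

end Pool.Agent.Results.MP_147bb8_nt.QOneCongruences
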